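import Pool.Agent.Helper10.EN.S13

/-! Project SquarefreeThree in residue classes (MP_540de1), leaf A: the palindromes coprime to ten in a
residue class against the remainders `rP`. -/

namespace Pool.Agent.Helper74.ST

open Finset Pool.Agent.Helper10 Pool.Agent.Helper10.P5 Pool.Agent.Helper10.P4
  Pool.Agent.Helper10.P3 Pool.Agent.Helper10.EN

lemma dvd_shift (M r N : ℕ) (hM : 0 < M) : M ∣ (M - 1) * r + N ↔ N ≡ r [MOD M] := by
  obtain ⟨k, rfl⟩ : ∃ k, M = k + 1 := ⟨M - 1, by omega⟩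
  rw [Nat.add_sub_cancel, Nat.modEq_iff_dvd, ← Int.natCast_dvd_natCast]
  have e : ((k * r + N : ℕ) : ℤ) = ((k + 1 : ℕ) : ℤ) * r - ((r : ℤ) - N) := by
    push_cast
    ring
  rw [e]
  constructor
  · intro h
    have h2 : ((k + 1 : ℕ) : ℤ) ∣ ((k + 1 : ℕ) : ℤ) * r := Dvd.intro _ rfl
    have h3 := dvd_sub h2 h
    have e2 : ((k + 1 : ℕ) : ℤ) * r - (((k + 1 : ℕ) : ℤ) * r - ((r : ℤ) - N)) = (r : ℤ) - N := by ring
    rwa [e2] at h3
  · intro h
    exact dvd_sub (Dvd.intro _ rfl) h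

private lemma card_class (n M r : ℕ) (hM : 0 < M) :
    ((EP n).filter (fun e => FPal n e ≡ r [MOD M])).card =
      ∑ c ∈ ({1, 3, 7, 9} : Finset ℕ), ∑ d ∈ range 10,
        cnt5 10 (n - 1) ((M - 1) * r + (c * (10 ^ (2 * n) + 1) + d * 10 ^ n)) M := by
  classical
  rw [Finset.card_filter]
  unfold EP
  rw [Finset.sum_product]
  apply Finset.sum_congr rfl
  intro c _
  rw [Finset.sum_product]
  apply Finset.sum_congr rfl
  intro d _
  unfold cnt5
  rw [Finset.card_filter]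
  apply Finset.sum_congr rfl
  intro f _
  have h : (FPal n (c, d, f) ≡ r [MOD M]) ↔
      M ∣ (M - 1) * r + (c * (10 ^ (2 * n) + 1) + d * 10 ^ n) + 10 * vl (n - 1) f := by
    rw [← dvd_shift M r _ hM]
    unfold FPal PN
    rw [Nat.add_assoc ((M - 1) * r)]
  by_cases h1 : FPal n (c, d, f) ≡ r [MOD M]
  · rw [if_pos h1, if_pos (h.1 h1)]
  · rw [if_neg h1, if_neg (fun h2 => h1 (h.2 h2))]

/-- one residue class -/
theorem A1 (n M r : ℕ) (hn : 1 ≤ n) (hM : 0 < M) :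
    |(((EP n).filter (fun e => FPal n e ≡ r [MOD M])).card : ℝ) - 4 * 10 ^ n / M| ≤ rP n M := by
  classical
  rw [card_class n M r hM]
  have h2 : (4 * (10 : ℝ) ^ n) / M = ∑ c ∈ ({1, 3, 7, 9} : Finset ℕ), ∑ d ∈ range 10,
      (10 : ℝ) ^ (n - 1) / M := by
    rw [Finset.sum_const, Finset.sum_const, Finset.card_range]
    obtain ⟨k, rfl⟩ : ∃ k, n = k + 1 := ⟨n - 1, by omega⟩
    have h4 : ({1, 3, 7, 9} : Finset ℕ).card = 4 := by decide
    rw [Nat.add_sub_cancel, pow_succ, h4]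
    simp only [nsmul_eq_mul]
    push_cast
    ring
  rw [h2]
  push_cast
  rw [← Finset.sum_sub_distrib]
  refine (Finset.abs_sum_le_sum_abs _ _).trans ?_
  have h3 : ∀ c ∈ ({1, 3, 7, 9} : Finset ℕ), |∑ d ∈ range 10,
      ((cnt5 10 (n - 1) ((M - 1) * r + (c * (10 ^ (2 * n) + 1) + d * 10 ^ n)) M : ℕ) : ℝ) -
      ∑ d ∈ range 10, (10 : ℝ) ^ (n - 1) / M| ≤
      10 * (10 ^ (n - 1) / M * ∑ d ∈ M.divisors.erase 1, Psi5 10 (n - 1) d) := by
    intro c _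
    rw [← Finset.sum_sub_distrib]
    refine (Finset.abs_sum_le_sum_abs _ _).trans ?_
    calc ∑ d ∈ range 10,
          |((cnt5 10 (n - 1) ((M - 1) * r + (c * (10 ^ (2 * n) + 1) + d * 10 ^ n)) M : ℕ) : ℝ) -
          (10 : ℝ) ^ (n - 1) / M|
        ≤ ∑ d ∈ range 10, (10 ^ (n - 1) / M * ∑ d ∈ M.divisors.erase 1, Psi5 10 (n - 1) d) :=
          Finset.sum_le_sum fun d _ => count5 10 (n - 1) _ M hM
      _ = _ := by
          rw [Finset.sum_const, Finset.card_range, nsmul_eq_mul]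
          norm_num
  refine (Finset.sum_le_sum h3).trans ?_
  have h4 : ({1, 3, 7, 9} : Finset ℕ).card = 4 := by decide
  rw [Finset.sum_const, h4, nsmul_eq_mul]
  unfold rP
  apply le_of_eq
  push_cast
  ring

/-- a residue class and a divisor -/
theorem A2 (n m a q : ℕ) (hn : 1 ≤ n) (hm : 0 < m) (hq : 0 < q) (hqm : q.Coprime m) :
    |(((EP n).filter (fun e => FPal n e ≡ a [MOD m] ∧ q ∣ FPal n e)).card : ℝ) -
      4 * 10 ^ n / (m * q : ℕ)| ≤ rP n (m * q) := by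
  classical
  obtain ⟨r, hr1, hr2⟩ := Nat.chineseRemainder hqm.symm a 0
  have h := A1 n (m * q) r hn (Nat.mul_pos hm hq)
  have e : (EP n).filter (fun e => FPal n e ≡ a [MOD m] ∧ q ∣ FPal n e) =
      (EP n).filter (fun e => FPal n e ≡ r [MOD m * q]) := by
    apply Finset.filter_congr
    intro x _
    rw [← Nat.modEq_and_modEq_iff_modEq_mul hqm.symm]
    constructor
    · rintro ⟨h1, h2⟩
      exact ⟨h1.trans hr1.symm, ((Nat.modEq_zero_iff_dvd).2 h2).trans hr2.symm⟩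
    · rintro ⟨h1, h2⟩
      exact ⟨h1.trans hr1, (Nat.modEq_zero_iff_dvd).1 (h2.trans hr2)⟩
  rw [e]
  exact h

/-- pairs: a member of the class and a number up to `T` -/
theorem A3 (n m a q q1 q2 T : ℕ) (hn : 1 ≤ n) (hm : 0 < m) (ham : a.Coprime m) (hq1 : 0 < q1)
    (hq2 : 0 < q2) (hq : q = q1 * q2) (hqm : q2.Coprime m) (hT : q1 ∣ T) (g : ℕ → ℕ)
    (hg : ∀ N t : ℕ, N.Coprime m → 0 < t → (q ∣ N * g t ↔ q2 ∣ N ∧ q1 ∣ t)) :
    |(((((EP n).filter (fun e => FPal n e ≡ a [MOD m])) ×ˢ Icc 1 T).filter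
      (fun x => q ∣ FPal n x.1 * g x.2)).card : ℝ) - 4 * 10 ^ n * T / m / q| ≤
      T / q1 * rP n (m * q2) := by
  classical
  obtain ⟨u, rfl⟩ := hT
  have e : (((EP n).filter (fun e => FPal n e ≡ a [MOD m])) ×ˢ Icc 1 (q1 * u)).filter
      (fun x => q ∣ FPal n x.1 * g x.2) =
      ((EP n).filter (fun e => FPal n e ≡ a [MOD m] ∧ q2 ∣ FPal n e)) ×ˢ
        ((Icc 1 (q1 * u)).filter (fun t => q1 ∣ t)) := by
    ext ⟨x, t⟩
    simp only [Finset.mem_filter, Finset.mem_product, Finset.mem_Icc]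
    constructor
    · rintro ⟨⟨⟨h1, h2⟩, h3⟩, h4⟩
      have hc : (FPal n x).Coprime m := by
        rw [Nat.coprime_iff_gcd_eq_one, h2.gcd_eq, ← Nat.coprime_iff_gcd_eq_one]
        exact ham
      obtain ⟨h5, h6⟩ := (hg _ t hc (by omega)).1 h4
      exact ⟨⟨h1, h2, h5⟩, h3, h6⟩
    · rintro ⟨⟨h1, h2, h5⟩, h3, h6⟩
      have hc : (FPal n x).Coprime m := by
        rw [Nat.coprime_iff_gcd_eq_one, h2.gcd_eq, ← Nat.coprime_iff_gcd_eq_one]
        exact ham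
      exact ⟨⟨⟨h1, h2⟩, h3⟩, (hg _ t hc (by omega)).2 ⟨h5, h6⟩⟩
  have hcard : ((Icc 1 (q1 * u)).filter (fun t => q1 ∣ t)).card = u := by
    have h1 : Icc 1 (q1 * u) = Ioc 0 (q1 * u) := by
      ext x
      simp only [Finset.mem_Icc, Finset.mem_Ioc]
      omega
    rw [h1, Nat.Ioc_filter_dvd_card_eq_div, Nat.mul_div_cancel_left _ hq1]
  rw [e, Finset.card_product, hcard, hq]
  have h := A2 n m a q2 hn hm hq2 hqm
  have hq1R : (q1 : ℝ) ≠ 0 := by exact_mod_cast hq1.ne'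
  have hq2R : (q2 : ℝ) ≠ 0 := by exact_mod_cast hq2.ne'
  have hmR : (m : ℝ) ≠ 0 := by exact_mod_cast hm.ne'
  have e2 : ((((EP n).filter (fun e => FPal n e ≡ a [MOD m] ∧ q2 ∣ FPal n e)).card * u : ℕ) : ℝ) -
      4 * 10 ^ n * ((q1 * u : ℕ) : ℝ) / m / ((q1 * q2 : ℕ) : ℝ) =
      u * ((((EP n).filter (fun e => FPal n e ≡ a [MOD m] ∧ q2 ∣ FPal n e)).card : ℝ) -
        4 * 10 ^ n / ((m * q2 : ℕ) : ℝ)) := by
    push_cast
    field_simp
  have e3 : ((q1 * u : ℕ) : ℝ) / q1 = u := by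
    push_cast
    field_simp
  rw [e2, e3, abs_mul, abs_of_nonneg (Nat.cast_nonneg u)]
  exact mul_le_mul_of_nonneg_left h (Nat.cast_nonneg u)

end Pool.Agent.Helper74.ST
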